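import Pool.Agent.Q158.BoxD

/-!
# Supersaturation of comparable pairs in `L(k,k)`
-/

set_option autoImplicit false

namespace Pool.Agent.Results.MP_75c11f_co.Supersaturation

open Q158.Box

/-- There are constants `c₁, c₂ > 0` and `k₀` such that for every `k ≥ k₀` every
`U ⊆ L(k,k)` with `|U| ≥ c₁ k^(-3/2) (2k choose k)` contains at least `c₂ k² |U|` comparable
pairs. -/
theorem result : ∃ c₁ c₂ : ℝ, 0 < c₁ ∧ 0 < c₂ ∧ ∃ k₀ : ℕ, ∀ k ≥ k₀,
    ∀ U : Finset (L k), c₁ * (k : ℝ) ^ (-(3 / 2) : ℝ) * ((2 * k).choose k : ℝ) ≤ U.card →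
      c₂ * (k : ℝ) ^ 2 * U.card ≤ compPairs U :=
  supersaturation

end Pool.Agent.Results.MP_75c11f_co.Supersaturation
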